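import Pool.Agent.H97Z.JE.Defs

set_option autoImplicit false

open MeasureTheory Filter Finset
open scoped BigOperators Topology ComplexConjugate InnerProductSpace

noncomputable section

namespace Pool.Agent.H414Z.JE

open Pool.Agent.H97Z.JE

variable {X : Type} [MeasurableSpace X]

theorem B1.memLp {f : X → ℂ} (hf : B1 f) (μ : Measure X) [IsProbabilityMeasure μ] :
    MemLp f 2 μ :=
  MemLp.of_bound hf.1.aestronglyMeasurable 1 (Eventually.of_forall hf.2)

theorem B1.conj {f : X → ℂ} (hf : B1 f) : B1 fun x => conj (f x) :=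
  ⟨Complex.continuous_conj.measurable.comp hf.1, fun x => by simpa using hf.2 x⟩

theorem B1.mul {f g : X → ℂ} (hf : B1 f) (hg : B1 g) : B1 fun x => f x * g x :=
  ⟨hf.1.mul hg.1, fun x => by
    rw [norm_mul]
    exact mul_le_one₀ (hf.2 x) (norm_nonneg _) (hg.2 x)⟩

theorem B1.integrable {f : X → ℂ} (hf : B1 f) (μ : Measure X) [IsProbabilityMeasure μ] :
    Integrable f μ :=
  (B1.memLp hf μ).integrable (by norm_num)

/-- weak limits in a Hilbert space along an ultrafilter -/
theorem hilb_lim {E : Type} [NormedAddCommGroup E] [InnerProductSpace ℂ E] [CompleteSpace E]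
    {ι : Type} (𝒰 : Ultrafilter ι) (f : ι → E) (hf : ∀ i, ‖f i‖ ≤ 1) :
    ∃ F : E, ∀ y : E, Tendsto (fun i => ⟪f i, y⟫_ℂ) 𝒰 (𝓝 ⟪F, y⟫_ℂ) := by
  let L : ι → WeakDual ℂ E := fun i => StrongDual.toWeakDual (InnerProductSpace.toDual ℂ E (f i))
  have hc := WeakDual.isCompact_closedBall (𝕜 := ℂ) (E := E) 0 1
  have hle : (𝒰.map L : Filter (WeakDual ℂ E)) ≤
      𝓟 (WeakDual.toStrongDual ⁻¹' Metric.closedBall (0 : StrongDual ℂ E) 1) := by
    rw [Filter.le_principal_iff, Ultrafilter.coe_map, Filter.mem_map]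
    refine Eventually.of_forall fun i => ?_
    show WeakDual.toStrongDual (L i) ∈ Metric.closedBall (0 : StrongDual ℂ E) 1
    rw [mem_closedBall_zero_iff]
    show ‖InnerProductSpace.toDual ℂ E (f i)‖ ≤ 1
    rw [LinearIsometryEquiv.norm_map]
    exact hf i
  obtain ⟨M, -, hM⟩ := hc.ultrafilter_le_nhds (𝒰.map L) hle
  refine ⟨(InnerProductSpace.toDual ℂ E).symm (WeakDual.toStrongDual M), fun y => ?_⟩
  have h1 : Tendsto L 𝒰 (𝓝 M) := hM
  have h2 := ((WeakDual.eval_continuous y).tendsto M).comp h1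
  rw [InnerProductSpace.toDual_symm_apply]
  exact h2

theorem thm_wl : S_wl := by
  intro X _ μ _ ι 𝒰 g hg
  have hm : ∀ i, MemLp (fun x => conj (g i x)) 2 μ := fun i => B1.memLp (B1.conj (hg i)) μ
  have hn : ∀ i, ‖(hm i).toLp _‖ ≤ 1 := by
    intro i
    have h := Lp.norm_le_of_ae_bound (f := (hm i).toLp _) (C := 1) zero_le_one (by
      filter_upwards [(hm i).coeFn_toLp] with x hx
      rw [hx]
      exact (B1.conj (hg i)).2 x)
    simpa [measureUnivNNReal] using h
  obtain ⟨F, hF⟩ := hilb_lim 𝒰 (fun i => (hm i).toLp _) hn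
  let G1 : X → ℂ := fun x => conj (F x)
  have hG1m : Measurable G1 :=
    Complex.continuous_conj.measurable.comp (Lp.stronglyMeasurable F).measurable
  have hG1i : Integrable G1 μ := by
    have h : Integrable (fun x => F x) μ := (Lp.memLp F).integrable (by norm_num)
    refine h.mono hG1m.aestronglyMeasurable (Eventually.of_forall fun x => ?_)
    simp [G1]
  have key : ∀ φ, B1 φ →
      Tendsto (fun i => ∫ x, g i x * φ x ∂μ) 𝒰 (𝓝 (∫ x, G1 x * φ x ∂μ)) := by
    intro φ hφ
    have h := hF ((B1.memLp hφ μ).toLp φ)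
    have e1 : ∀ i, ⟪(hm i).toLp _, (B1.memLp hφ μ).toLp φ⟫_ℂ = ∫ x, g i x * φ x ∂μ := by
      intro i
      rw [L2.inner_def]
      refine integral_congr_ae ?_
      filter_upwards [(hm i).coeFn_toLp, (B1.memLp hφ μ).coeFn_toLp] with x h1 h2
      rw [h1, h2]
      simp [mul_comm]
    have e2 : ⟪F, (B1.memLp hφ μ).toLp φ⟫_ℂ = ∫ x, G1 x * φ x ∂μ := by
      rw [L2.inner_def]
      refine integral_congr_ae ?_
      filter_upwards [(B1.memLp hφ μ).coeFn_toLp] with x h2
      rw [h2]
      simp [G1, mul_comm]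
    simp only [e1, e2] at h
    exact h
  let A : Set X := {x | 1 < ‖G1 x‖}
  have hA : MeasurableSet A := measurableSet_lt measurable_const hG1m.norm
  have hnull : ∀ᵐ x ∂μ, ‖G1 x‖ ≤ 1 := by
    let φ : X → ℂ := A.indicator fun x => conj (G1 x) / (‖G1 x‖ : ℂ)
    have hφ : B1 φ := by
      refine ⟨Measurable.indicator ?_ hA, fun x => ?_⟩
      · exact (Complex.continuous_conj.measurable.comp hG1m).div
          (Complex.measurable_ofReal.comp hG1m.norm)
      · by_cases hx : x ∈ A
        · simp only [φ, Set.indicator_of_mem hx, norm_div, Complex.norm_conj, Complex.norm_real,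
            norm_norm]
          exact div_self_le_one _
        · simp [φ, Set.indicator_of_notMem hx]
    have h1 : ∀ i, ‖∫ x, g i x * φ x ∂μ‖ ≤ ∫ x, A.indicator (fun _ => (1 : ℝ)) x ∂μ := by
      intro i
      refine norm_integral_le_of_norm_le ((integrable_const _).indicator hA)
        (Eventually.of_forall fun x => ?_)
      by_cases hx : x ∈ A
      · rw [Set.indicator_of_mem hx]
        exact (B1.mul (hg i) hφ).2 x
      · simp [φ, Set.indicator_of_notMem hx]
    have h2 : ‖∫ x, G1 x * φ x ∂μ‖ ≤ ∫ x, A.indicator (fun _ => (1 : ℝ)) x ∂μ :=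
      le_of_tendsto (key φ hφ).norm (Eventually.of_forall h1)
    have h3 : ∫ x, G1 x * φ x ∂μ = ((∫ x, A.indicator (fun x => ‖G1 x‖) x ∂μ : ℝ) : ℂ) := by
      rw [← integral_complex_ofReal]
      refine integral_congr_ae (Eventually.of_forall fun x => ?_)
      by_cases hx : x ∈ A
      · have hx' : (‖G1 x‖ : ℂ) ≠ 0 := by
          have : (1 : ℝ) < ‖G1 x‖ := hx
          exact_mod_cast (by linarith : ‖G1 x‖ ≠ 0)
        simp only [φ, Set.indicator_of_mem hx]
        rw [mul_div_assoc', Complex.mul_conj, Complex.normSq_eq_norm_sq]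
        push_cast
        field_simp
      · simp [φ, Set.indicator_of_notMem hx]
    have hi1 : Integrable (A.indicator fun x => ‖G1 x‖) μ := hG1i.norm.indicator hA
    have hi2 : Integrable (A.indicator fun _ => (1 : ℝ)) μ := (integrable_const _).indicator hA
    have h4 : ∫ x, A.indicator (fun x => ‖G1 x‖) x ∂μ ≤
        ∫ x, A.indicator (fun _ => (1 : ℝ)) x ∂μ := by
      rw [h3, Complex.norm_real] at h2
      exact (le_abs_self _).trans h2
    have h5 : 0 ≤ fun x => A.indicator (fun x => ‖G1 x‖) x - A.indicator (fun _ => (1 : ℝ)) x := by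
      intro x
      by_cases hx : x ∈ A
      · have : (1 : ℝ) < ‖G1 x‖ := hx
        simp only [Set.indicator_of_mem hx, Pi.zero_apply]
        linarith
      · simp [Set.indicator_of_notMem hx]
    have h6 : ∫ x, (A.indicator (fun x => ‖G1 x‖) x - A.indicator (fun _ => (1 : ℝ)) x) ∂μ = 0 := by
      refine le_antisymm ?_ (integral_nonneg h5)
      rw [integral_sub hi1 hi2]
      linarith
    rw [integral_eq_zero_iff_of_nonneg h5 (hi1.sub hi2)] at h6
    filter_upwards [h6] with x hx
    by_contra hc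
    have hx' : x ∈ A := not_le.mp hc
    have : (1 : ℝ) < ‖G1 x‖ := hx'
    simp only [Set.indicator_of_mem hx', Pi.zero_apply] at hx
    linarith
  refine ⟨Aᶜ.indicator G1, ⟨hG1m.indicator hA.compl, fun x => ?_⟩, fun φ hφ => ?_⟩
  · by_cases hx : x ∈ Aᶜ
    · rw [Set.indicator_of_mem hx]
      exact not_lt.mp hx
    · simp [Set.indicator_of_notMem hx]
  · have e : ∫ x, Aᶜ.indicator G1 x * φ x ∂μ = ∫ x, G1 x * φ x ∂μ := by
      refine integral_congr_ae ?_
      filter_upwards [hnull] with x hx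
      have hx' : x ∈ Aᶜ := not_lt.mpr hx
      rw [Set.indicator_of_mem hx']
    rw [e]
    exact key φ hφ

end Pool.Agent.H414Z.JE
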